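import Pool.Agent.W5h81.Mt.Main
import Pool.Agent.Results.MP_257582_lc.DisjointCopies

set_option autoImplicit false

/-!
# Every property between matchings with `k` edges and vertex covers with `k` vertices is evasive

Let `1 ≤ k ≤ (n + 1) / 2`. Every monotone isomorphism-invariant property `P` of graphs on `n`
vertices such that

* every graph with `k` vertex-disjoint edges has `P` (and if `2 k = n + 1`, every graph with a
  spanning subgraph that consists of a triangle and `k - 2` edges, vertex-disjoint, has `P`),
* every graph with `P` has at least `2 k - 1` non-isolated vertices and no vertex cover with fewer than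
  `min (k, n + 3 - 2 k)` vertices,

is evasive, for every `n`. For even `n` this follows from `DisjointCopies` (only the first
condition is needed); the new case is that of odd `n`.

Examples, for every `n` (in all of them the property is neither empty nor everything):

* to have a matching with `k` edges, `1 ≤ k ≤ n / 2`;
* the fractional matching number is at least `x`, for real `0 < x ≤ n / 2`; equivalently the
  generic rank of the symmetric matrices with the pattern of `G` is at least `r`, `1 ≤ r ≤ n`;
* there are vertex-disjoint subgraphs in `𝓕` which cover at least `2 k` vertices, or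
  at least `2 k - 1` vertices if `2 k ≤ n` or the triangle is in `𝓕`, where `𝓕` is any set of
  graphs that contains the single edge and all members of which have independence number at most
  half the number of vertices (for example edges and triangles, edges and all complete graphs, edges
  and odd cycles);
* there are at least `2 k - 1` (or `2 k`) non-isolated vertices and every vertex cover has at
  least `k` vertices;
* for odd `n`: there are no isolated vertices and there is a triangle (or an odd cycle, or
  a cycle).

Proof.  Let `n` be odd. If `3 k ≤ n + 2`, then there is a prime `p` dividing `n` such that `n / p`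
disjoint paths on `p` vertices contain `k` disjoint edges, and `DisjointCopies` applies. Let
`3 k > n + 2` and `m = k - 1`. The vertex set is cut into a set `F` of `n - 2 m` fixed points and
`m` blocks of size two; the group is generated by the exchanges of the vertices of the blocks and
the rotation of the blocks. Its orbits of pairs are the pairs in `F`, the stars of the elements of
`F`, and the differences `± d` of the blocks (`d = 0`: the pairs which are blocks). If `P` is not
evasive, then the signed sum of its values over the invariant graphs vanishes. An invariant graph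
without edges between the vertices of blocks has the vertex cover `F` and fails `P`. Otherwise it
contains the `m` disjoint edges `(i, 0) (i + d, 1)`, and `m + 1 = k` disjoint edges if it
contains a pair in `F` or two stars. If there are no pairs in `F` and no stars, then there are at
most `2 m` non-isolated vertices. So the signed sum is `1 - |F| (1 + X)`, where the integer
`X` comes from the graphs with one star, and it does not vanish if `|F| ≥ 2`. If `|F| = 1` then
`X = - 1`.
-/

namespace Pool.Agent.Results.MP_257582_lc.MatchingSandwich

open Pool.Agent.H119R2.Kp (GP PV pve_map_adj)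

/-- Every decision strategy `σ` (the next pair to be queried depends only on the answers to the
queries made so far) needs all `n.choose 2` queries: there are two graphs that agree on the first
`n.choose 2 - 1` queried pairs, one with and one without `P`. -/
def Evasive {n : ℕ} (P : SimpleGraph (Fin n) → Prop) : Prop :=
  ∀ σ : Finset (Sym2 (Fin n)) → SimpleGraph (Fin n) → Sym2 (Fin n),
    (∀ (Q : Finset (Sym2 (Fin n))) (G H : SimpleGraph (Fin n)),
        (∀ e ∈ Q, (e ∈ G.edgeSet ↔ e ∈ H.edgeSet)) → σ Q G = σ Q H) →
    ∃ G H : SimpleGraph (Fin n),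
      (∀ e ∈ (fun Q : Finset (Sym2 (Fin n)) => insert (σ Q G) Q)^[n.choose 2 - 1]
            (∅ : Finset (Sym2 (Fin n))),
          (e ∈ G.edgeSet ↔ e ∈ H.edgeSet)) ∧ P G ∧ ¬ P H

/-- `G` contains `k` vertex-disjoint edges. -/
def DisjointEdges {n : ℕ} (k : ℕ) (G : SimpleGraph (Fin n)) : Prop :=
  ∃ u v : Fin k → Fin n, Function.Injective (Sum.elim u v) ∧ ∀ i, G.Adj (u i) (v i)

/-- `G` contains a triangle and `k` edges, all vertex-disjoint. -/
def TriangleAndEdges {n : ℕ} (k : ℕ) (G : SimpleGraph (Fin n)) : Prop :=
  ∃ (t : Fin 3 → Fin n) (u v : Fin k → Fin n),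
    Function.Injective (Sum.elim t (Sum.elim u v)) ∧
    (∀ i j, i ≠ j → G.Adj (t i) (t j)) ∧ ∀ i, G.Adj (u i) (v i)

/-- The set of the non-isolated vertices. -/
def NonIsolated {n : ℕ} (G : SimpleGraph (Fin n)) : Set (Fin n) := {v | ∃ w, G.Adj v w}

/-- `C` meets every edge. -/
def VertexCover {n : ℕ} (G : SimpleGraph (Fin n)) (C : Finset (Fin n)) : Prop :=
  ∀ v w, G.Adj v w → v ∈ C ∨ w ∈ C

/-- disjoint edges in disjoint paths -/
theorem paths (n r t p k : ℕ) (hp : 2 * t ≤ p) (hk : k ≤ r * t) (e : Fin r × Fin p ≃ Fin n) :
    DisjointEdges k ((DisjointCopies.copies r (SimpleGraph.pathGraph p)).map e.toEmbedding) := by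
  classical
  let g : Fin k → Fin r × Fin t := fun i => finProdFinEquiv.symm (Fin.castLE hk i)
  have hg : Function.Injective g :=
    finProdFinEquiv.symm.injective.comp (Fin.castLE_injective hk)
  refine ⟨fun i => e ((g i).1, ⟨2 * (g i).2.1, by have := (g i).2.2; omega⟩),
    fun i => e ((g i).1, ⟨2 * (g i).2.1 + 1, by have := (g i).2.2; omega⟩), ?_, ?_⟩
  · rintro (x | x) (y | y) hxy
    · simp only [Sum.elim_inl, EmbeddingLike.apply_eq_iff_eq, Prod.mk.injEq, Fin.mk.injEq] at hxy
      congr 1
      apply hg
      refine Prod.ext hxy.1 (Fin.ext ?_)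
      omega
    · exfalso
      simp only [Sum.elim_inl, Sum.elim_inr, EmbeddingLike.apply_eq_iff_eq, Prod.mk.injEq,
        Fin.mk.injEq] at hxy
      omega
    · exfalso
      simp only [Sum.elim_inl, Sum.elim_inr, EmbeddingLike.apply_eq_iff_eq, Prod.mk.injEq,
        Fin.mk.injEq] at hxy
      omega
    · simp only [Sum.elim_inr, EmbeddingLike.apply_eq_iff_eq, Prod.mk.injEq, Fin.mk.injEq] at hxy
      congr 1
      apply hg
      refine Prod.ext hxy.1 (Fin.ext ?_)
      omega
  · intro i
    rw [pve_map_adj]
    simp only [Equiv.symm_apply_apply]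
    refine ⟨rfl, ?_⟩
    rw [SimpleGraph.pathGraph_adj]
    left
    rfl

/-- **Every property between matchings and vertex covers is evasive.** -/
theorem result (n k : ℕ) (hn : 2 ≤ n) (hk : 1 ≤ k) (hkn : 2 * k ≤ n + 1)
    (P : SimpleGraph (Fin n) → Prop)
    (hmono : ∀ G H : SimpleGraph (Fin n), G ≤ H → P G → P H)
    (hiso : ∀ (σ : Fin n ≃ Fin n) (G : SimpleGraph (Fin n)), P G → P (G.map σ.toEmbedding))
    (hlow : ∀ G, DisjointEdges k G → P G)
    (hodd : 2 * k = n + 1 → ∀ G, TriangleAndEdges (k - 2) G → P G)
    (hup : ∀ G, P G → 2 * k - 1 ≤ (NonIsolated G).ncard ∧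
      ∀ C, VertexCover G C → min k (n + 3 - 2 * k) ≤ C.card) :
    Evasive P := by
  have hbot : ¬ P ⊥ := by
    intro h
    have h1 := (hup _ h).1
    have h2 : NonIsolated (⊥ : SimpleGraph (Fin n)) = ∅ := by
      ext v
      simp [NonIsolated]
    rw [h2, Set.ncard_empty] at h1
    omega
  -- the case of `DisjointCopies`
  have hcop : ∀ p r t : ℕ, p.Prime → n = r * p → 2 * t ≤ p → k ≤ r * t → Evasive P := by
    intro p r t hp hnp h2t hkt
    have e0 : Nonempty (Fin r × Fin p ≃ Fin n) := by
      rw [hnp]
      exact ⟨finProdFinEquiv⟩
    obtain ⟨e⟩ := e0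
    exact DisjointCopies.result n r p hp.isPrimePow hnp (SimpleGraph.pathGraph p)
      (Or.inl ⟨hp, rfl⟩) P hmono hiso (Or.inl ⟨hbot, e, hlow _ (paths n r t p k h2t hkt e)⟩)
  rcases Nat.even_or_odd n with he | ho
  · obtain ⟨r, hr⟩ := he
    exact hcop 2 r 1 Nat.prime_two (by omega) le_rfl (by omega)
  · by_cases h3 : 3 * k ≤ n + 2
    · have hpr : n.minFac.Prime := Nat.minFac_prime (by omega)
      obtain ⟨r, hr⟩ := Nat.minFac_dvd n
      have hodd2 : ¬ n.minFac = 2 := by
        intro h
        have h4 := Nat.minFac_dvd n
        rw [h] at h4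
        exact (Nat.not_even_iff_odd.2 ho) (even_iff_two_dvd.2 h4)
      obtain ⟨t, ht⟩ : ∃ t, n.minFac = 2 * t + 1 := by
        have h5 := hpr.eq_two_or_odd'
        rcases h5 with h5 | h5
        · exact absurd h5 hodd2
        · exact h5
      generalize hp : n.minFac = p at *
      have hr' : n = r * p := by rw [hr]; ring
      refine hcop p r t hpr hr' (by omega) ?_
      by_contra hcon
      push Not at hcon
      have ht1 : 1 ≤ t := by
        have := hpr.two_le
        omega
      have h6 : n = 2 * (r * t) + r := by
        rw [hr', ht]
        ring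
      by_cases ht2 : t = 1
      · subst ht2
        omega
      · have h7 : r * 2 ≤ r * t := Nat.mul_le_mul_left _ (by omega)
        omega
    · intro σ hσ
      by_contra hcon
      have hdec : Pool.Agent.H119R2.Kp.Dec (n.choose 2 - 1)
          (fun S : Finset (Pool.Agent.H98R2.Ev.EV (Fin n)) =>
            P (Pool.Agent.H98R2.Ev.toG S)) := by
        refine Pool.Agent.H119R2.Kp.dec_of_strategy _ P σ hσ fun G H hGH hPG => ?_
        by_contra hPH
        exact hcon ⟨G, H, hGH, hPG, hPH⟩
      have hGP : GP n (n.choose 2 - 1) P := ⟨hmono, hiso, hdec⟩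
      have hch : 0 < n.choose 2 := Nat.choose_pos hn
      exact Pool.Agent.W5h81.Mt.main hGP (by omega) (by omega) hkn hlow hodd hup

end Pool.Agent.Results.MP_257582_lc.MatchingSandwich
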